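import Pool.Agent.W516.MTP.Main
import Pool.Agent.W828.MTP.PT

/-!
# Relations between real periods which hold for `p`-adic periods

A homogeneous system of polynomial relations with rational coefficients which holds for the real
(complex) periods of a mixed Tate motive over `ℤ` and whose zero set is stable under the
single-valued matrix `p⁻¹ p̄` holds for the `p`-adic periods, for every prime `p`.
-/

set_option autoImplicit false

namespace Pool.Agent.Results.MP_03df5c_nt.SingleValuedStable

open Pool.Agent.W516.MTZ Pool.Agent.W516.MTP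

theorem result (m X : Type) [Fintype m] [DecidableEq m] [Fintype X] [DecidableEq X]
    (M : Motive m X) (p : (Matrix m m ℂ)ˣ) (hp : p ∈ M.gp)
    (hdeg : ∀ x, Odd (M.deg x) ∧ 3 ≤ M.deg x) (hinj : Function.Injective M.deg)
    (hpi : (p : Matrix m m ℂ) M.t M.t = 2 * Real.pi * Complex.I)
    (hzeta : ∀ x, (p : Matrix m m ℂ) M.o (M.s x) = riemannZeta (M.deg x))
    (R : Set (MvPolynomial (m × m) ℚ))
    (hR : ∀ f ∈ R, ∃ n, f.IsWeightedHomogeneous (fun k => M.wt k.2) n)
    (hRp : Vanish R (p : Matrix m m ℂ))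
    (hRs : ∀ B : (Matrix m m ℂ)ˣ, Vanish R (B : Matrix m m ℂ) → Vanish R
      ((B : Matrix m m ℂ) *
        (((p⁻¹ : (Matrix m m ℂ)ˣ) : Matrix m m ℂ) * (p : Matrix m m ℂ).map (starRingEnd ℂ))))
    (K : Type) [Field K] [CharZero K] (u : (Matrix m m K)ˣ) (hu : u ∈ unip M K) (l : K) :
    Vanish R (Matrix.diagonal (fun i => l ^ M.wt i) * (u : Matrix m m K)) :=
  (main_p Pool.Agent.W828.MTP.T_PT hp hdeg hinj hpi hzeta R hR hRp hRs).2 K u hu l

end Pool.Agent.Results.MP_03df5c_nt.SingleValuedStable
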